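import Pool.Agent.V1198.SemiP2

/-!
# MP_d0fcce_an, Q1: a separable semiprojective Banach lattice is `1⁺`-projective
-/

set_option autoImplicit false

namespace Pool.Agent.Results.MP_d0fcce_an.Coincide

open Pool.Agent.V1198.BL Pool.Agent.V1198.YS

/-- **Theorem.** Every separable semiprojective Banach lattice is `1⁺`-projective. -/
theorem result : ∀ A : BLat, TopologicalSpace.SeparableSpace A → Semiprojective A →
    Projective A := fun _ hs hA => projective_of_semiprojective hs hA

end Pool.Agent.Results.MP_d0fcce_an.Coincide
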